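import Pool.Agent.V11251.CR.Alg

/-!
# A contact algebra of clopen sets which satisfies the first-order condition but is not regular
-/

set_option autoImplicit false
set_option linter.unusedVariables false
set_option linter.unusedSectionVars false

open TopologicalSpace

namespace Pool.Agent.V11251.CR

/-- an uncountable discrete space -/
def Idx : Type := ℕ → Bool

instance : TopologicalSpace Idx := ⊥
instance : DiscreteTopology Idx := ⟨rfl⟩

/-- letters -/
abbrev Lt : Type := Idx × Bool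
/-- sequences of letters and `∞` -/
abbrev YY : Type := ℕ → OnePoint Lt
/-- fibres -/
abbrev ZZ : Type := Idx → Fin 3
/-- the space -/
abbrev XX : Type := YY × ZZ

/-- the first letter with index `i` is `(i, β)` -/
def TT (i : Idx) (β : Bool) (x : YY) : Prop :=
  ∃ n, x n = ((i, β) : Lt) ∧ ∀ m < n, x m ≠ ((i, !β) : Lt)

theorem TT_excl {i : Idx} {β : Bool} {x : YY} (h : TT i β x) (h' : TT i (!β) x) : False := by
  obtain ⟨n, hn, hn'⟩ := h
  obtain ⟨m, hm, hm'⟩ := h'
  rcases lt_trichotomy n m with h1 | h1 | h1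
  · apply hm' n h1
    rw [hn, Bool.not_not]
  · rw [h1, hm] at hn
    have := OnePoint.coe_injective hn
    have h2 : (!β) = β := congrArg Prod.snd this
    cases β <;> simp at h2
  · exact hn' m h1 hm

theorem exists_TT {i : Idx} {β : Bool} {x : YY} {m : ℕ} (h : x m = ((i, β) : Lt)) :
    ∃ β, TT i β x := by
  classical
  have hex : ∃ m, ∃ β : Bool, x m = ((i, β) : Lt) := ⟨m, β, h⟩
  obtain ⟨β', hβ'⟩ := Nat.find_spec hex
  exact ⟨β', Nat.find hex, hβ', fun k hk hk' => Nat.find_min hex hk ⟨_, hk'⟩⟩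

theorem isOpen_coe_singleton (l : Lt) : IsOpen ({(l : OnePoint Lt)} : Set (OnePoint Lt)) := by
  have := (OnePoint.isOpen_image_coe (X := Lt) (s := {l})).2 (isOpen_discrete _)
  rwa [Set.image_singleton] at this

theorem isOpen_TT (i : Idx) (β : Bool) : IsOpen {x : YY | TT i β x} := by
  have : {x : YY | TT i β x} = ⋃ n : ℕ, ((fun x : YY => x n) ⁻¹' {(((i, β) : Lt) : OnePoint Lt)} ∩
      ⋂ m ∈ Set.Iio n, (fun x : YY => x m) ⁻¹' {(((i, !β) : Lt) : OnePoint Lt)}ᶜ) := by
    ext x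
    simp only [Set.mem_setOf_eq, TT, Set.mem_iUnion, Set.mem_inter_iff, Set.mem_preimage,
      Set.mem_singleton_iff, Set.mem_iInter, Set.mem_Iio, Set.mem_compl_iff]
  rw [this]
  refine isOpen_iUnion fun n => IsOpen.inter ((isOpen_coe_singleton _).preimage
    (continuous_apply n)) ?_
  exact (Set.finite_Iio n).isOpen_biInter fun m _ =>
    (isOpen_compl_singleton).preimage (continuous_apply m)

/-- the two equivalence relations -/
def EE (β : Bool) (s t : Fin 3) : Prop := s = t ∨ (β = true ∧ s ≠ 0 ∧ t ≠ 0) ∨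
  (β = false ∧ s ≠ 2 ∧ t ≠ 2)

/-- the relation at `i` over `x` -/
def R1 (i : Idx) (x : YY) (s t : Fin 3) : Prop :=
  s = t ∨ (¬ TT i true x ∧ s ≠ 2 ∧ t ≠ 2) ∨ (¬ TT i false x ∧ s ≠ 0 ∧ t ≠ 0)

theorem R1_iff {i : Idx} {β : Bool} {x : YY} (h : TT i β x) (s t : Fin 3) :
    R1 i x s t ↔ EE β s t := by
  unfold R1 EE
  cases β
  · have h2 : ¬ TT i true x := fun h' => TT_excl h h'
    simp [h, h2]
  · have h2 : ¬ TT i false x := fun h' => TT_excl h h'
    simp [h, h2]

theorem R1_symm {i : Idx} {x : YY} {s t : Fin 3} (h : R1 i x s t) : R1 i x t s := by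
  unfold R1 at *
  tauto

theorem EE_refl (β : Bool) (s : Fin 3) : EE β s s := Or.inl rfl

theorem EE_symm {β : Bool} {s t : Fin 3} (h : EE β s t) : EE β t s := by
  unfold EE at *
  tauto

theorem EE_trans {β : Bool} {s t r : Fin 3} (h : EE β s t) (h' : EE β t r) : EE β s r := by
  unfold EE at *
  revert h h'
  cases β <;> fin_cases s <;> fin_cases t <;> fin_cases r <;> simp

/-- the contact relation -/
def CC (a b : Clopens XX) : Prop := ∃ (x : YY) (u v : ZZ), (x, u) ∈ a ∧ (x, v) ∈ b ∧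
  ∀ i, R1 i x (u i) (v i)

theorem isContact : IsContact CC := by
  refine ⟨?_, ?_, ?_, ?_⟩
  · rintro a b ⟨x, u, v, hu, hv, h⟩
    constructor
    · rintro rfl; exact hu
    · rintro rfl; exact hv
  · intro a b c
    constructor
    · rintro ⟨x, u, v, hu, hv, h⟩
      rcases hv with hv | hv
      · exact Or.inl ⟨x, u, v, hu, hv, h⟩
      · exact Or.inr ⟨x, u, v, hu, hv, h⟩
    · rintro (⟨x, u, v, hu, hv, h⟩ | ⟨x, u, v, hu, hv, h⟩)
      · exact ⟨x, u, v, hu, Or.inl hv, h⟩
      · exact ⟨x, u, v, hu, Or.inr hv, h⟩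
  · rintro a b ⟨x, u, v, hu, hv, h⟩
    exact ⟨x, v, u, hv, hu, fun i => R1_symm (h i)⟩
  · intro a b h
    obtain ⟨⟨x, u⟩, hxu⟩ : ∃ p, p ∈ a ⊓ b := by
      by_contra hcon
      push Not at hcon
      apply h
      ext p
      constructor
      · intro hp; exact absurd hp (hcon p)
      · intro hp; exact absurd hp (by exact id)
    exact ⟨x, u, u, hxu.1, hxu.2, fun i => Or.inl rfl⟩

/-- clopen sets depend locally on finitely many coordinates of the fibre -/
theorem depend (a : Clopens XX) (x : YY) : ∃ W : Set YY, IsOpen W ∧ x ∈ W ∧ ∃ F : Finset Idx,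
    ∀ y ∈ W, ∀ u v : ZZ, (∀ i ∈ F, u i = v i) → ((x, u) ∈ a ↔ (y, v) ∈ a) := by
  classical
  have hloc : ∀ u : ZZ, ∃ W : Set YY, IsOpen W ∧ x ∈ W ∧ ∃ F : Finset Idx,
      ∀ y ∈ W, ∀ v : ZZ, (∀ i ∈ F, u i = v i) → ((x, u) ∈ a ↔ (y, v) ∈ a) := by
    intro u
    obtain ⟨s, hs, hsx, hsa⟩ : ∃ s : Set XX, IsOpen s ∧ (x, u) ∈ s ∧
        ∀ p ∈ s, ((x, u) ∈ a ↔ p ∈ a) := by
      by_cases h : (x, u) ∈ a
      · exact ⟨a, a.isClopen.isOpen, h, fun p hp => ⟨fun _ => hp, fun _ => h⟩⟩
      · exact ⟨(a : Set XX)ᶜ, a.isClopen.compl.isOpen, h, fun p hp =>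
          ⟨fun h' => absurd h' h, fun h' => absurd h' hp⟩⟩
    obtain ⟨W, V, hW, hV, hxW, huV, hWV⟩ := isOpen_prod_iff.1 hs x u hsx
    obtain ⟨F, U, hU, hUV⟩ := isOpen_pi_iff.1 hV u huV
    refine ⟨W, hW, hxW, F, fun y hy v hv => hsa _ (hWV ⟨hy, hUV ?_⟩)⟩
    intro i hi
    show v i ∈ U i
    rw [← hv i hi]
    exact (hU i hi).2
  choose W hW hxW F hF using hloc
  have hcyl : ∀ u : ZZ, IsOpen {v : ZZ | ∀ i ∈ F u, u i = v i} := by
    intro u
    have : {v : ZZ | ∀ i ∈ F u, u i = v i} =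
        ⋂ i ∈ (F u : Set Idx), (fun v : ZZ => v i) ⁻¹' {u i} := by
      ext v
      simp only [Set.mem_setOf_eq, Set.mem_iInter, Set.mem_preimage, Set.mem_singleton_iff,
        Finset.mem_coe]
      exact forall₂_congr fun i _ => eq_comm
    rw [this]
    exact (Finset.finite_toSet _).isOpen_biInter fun i _ =>
      (isOpen_discrete _).preimage (continuous_apply i)
  obtain ⟨t, ht⟩ := isCompact_univ.elim_finite_subcover (fun u : ZZ => {v : ZZ | ∀ i ∈ F u, u i = v i})
    hcyl (fun v _ => Set.mem_iUnion.2 ⟨v, fun i _ => rfl⟩)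
  refine ⟨⋂ u ∈ (t : Set ZZ), W u, (Finset.finite_toSet _).isOpen_biInter fun u _ => hW u,
    Set.mem_iInter₂.2 fun u _ => hxW u, t.biUnion F, ?_⟩
  intro y hy u v huv
  obtain ⟨u₀, hu₀, hu₀'⟩ := Set.mem_iUnion₂.1 (ht (Set.mem_univ u))
  have h1 : (x, u₀) ∈ a ↔ (x, u) ∈ a := hF u₀ x (hxW u₀) u hu₀'
  have h2 : (x, u₀) ∈ a ↔ (y, v) ∈ a := hF u₀ y (Set.mem_iInter₂.1 hy u₀ hu₀) v fun i hi =>
    (hu₀' i hi).trans (huv i (Finset.mem_biUnion.2 ⟨u₀, hu₀, hi⟩))
  exact h1.symm.trans h2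

theorem exists_good (x : YY) (W : Set YY) (hW : IsOpen W) (hx : x ∈ W) (F : Finset Idx)
    (z z' : ZZ) (hz : ∀ i, R1 i x (z i) (z' i)) :
    ∃ (x' : YY) (γ : Idx → Bool), x' ∈ W ∧ ∀ i ∈ F, TT i (γ i) x' ∧ EE (γ i) (z i) (z' i) := by
  classical
  obtain ⟨I, U, hU, hUW⟩ := isOpen_pi_iff.1 hW x hx
  -- witnesses
  have hwit : ∀ i, ∃ n, ∀ β, TT i β x → ∃ k < n, x k = ((i, β) : Lt) ∧
      ∀ m < k, x m ≠ ((i, !β) : Lt) := by
    intro i
    by_cases h1 : TT i true x
    · obtain ⟨k, hk1, hk2⟩ := h1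
      refine ⟨k + 1, fun β hβ => ?_⟩
      cases β
      · exact absurd ⟨k, hk1, hk2⟩ (fun h => TT_excl hβ h)
      · exact ⟨k, Nat.lt_succ_self k, hk1, hk2⟩
    · by_cases h2 : TT i false x
      · obtain ⟨k, hk1, hk2⟩ := h2
        refine ⟨k + 1, fun β hβ => ?_⟩
        cases β
        · exact ⟨k, Nat.lt_succ_self k, hk1, hk2⟩
        · exact absurd hβ h1
      · refine ⟨0, fun β hβ => ?_⟩
        cases β
        · exact absurd hβ h2
        · exact absurd hβ h1
  choose N hN using hwit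
  let M : ℕ := (I.sup id) + 1 + F.sup N
  have hMI : ∀ n ∈ I, n < M := by
    intro n hn
    have := Finset.le_sup (f := id) hn
    simp only [id] at this
    omega
  have hMF : ∀ i ∈ F, N i ≤ M := by
    intro i hi
    have := Finset.le_sup (f := N) hi
    omega
  let γ : Idx → Bool := fun i => if TT i true x then true else if TT i false x then false else
    if z i = 0 ∨ z' i = 0 then false else true
  let x' : YY := fun m => if m < M then x m else
    (F.toList[m - M]?).elim (OnePoint.infty : OnePoint Lt) (fun i => (((i, γ i) : Lt) : OnePoint Lt))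
  have hx'lt : ∀ m < M, x' m = x m := fun m hm => if_pos hm
  have hx'ge : ∀ k, x' (M + k) =
      (F.toList[k]?).elim (OnePoint.infty : OnePoint Lt)
        (fun i => (((i, γ i) : Lt) : OnePoint Lt)) := by
    intro k
    have h1 : ¬ (M + k < M) := by omega
    show (if M + k < M then _ else _) = _
    rw [if_neg h1, Nat.add_sub_cancel_left]
  refine ⟨x', γ, hUW ?_, ?_⟩
  · intro n hn
    rw [hx'lt n (hMI n hn)]
    exact (hU n hn).2
  · intro i hi
    have hold : ∀ β, TT i β x → TT i β x' := by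
      intro β hβ
      obtain ⟨k, hk, hk1, hk2⟩ := hN i β hβ
      have hkM : k < M := hk.trans_le (hMF i hi)
      refine ⟨k, by rw [hx'lt k hkM]; exact hk1, fun m hm => ?_⟩
      rw [hx'lt m (hm.trans hkM)]
      exact hk2 m hm
    by_cases h1 : TT i true x
    · have hγ : γ i = true := if_pos h1
      rw [hγ]
      exact ⟨hold _ h1, (R1_iff h1 _ _).1 (hz i)⟩
    by_cases h2 : TT i false x
    · have hγ : γ i = false := by
        show (if TT i true x then true else _) = false
        rw [if_neg h1, if_pos h2]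
      rw [hγ]
      exact ⟨hold _ h2, (R1_iff h2 _ _).1 (hz i)⟩
    have hno : ∀ m β, x m ≠ ((i, β) : Lt) := by
      intro m β hm
      obtain ⟨β', hβ'⟩ := exists_TT hm
      cases β'
      · exact h2 hβ'
      · exact h1 hβ'
    have hγ : γ i = if z i = 0 ∨ z' i = 0 then false else true := by
      show (if TT i true x then true else _) = _
      rw [if_neg h1, if_neg h2]
    constructor
    · obtain ⟨k, hk, hki⟩ := List.getElem_of_mem (Finset.mem_toList.2 hi)
      refine ⟨M + k, ?_, ?_⟩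
      · rw [hx'ge k, List.getElem?_eq_getElem hk, hki]
        rfl
      · intro m hm hcon
        rcases lt_or_ge m M with h3 | h3
        · rw [hx'lt m h3] at hcon
          exact hno m _ hcon
        · obtain ⟨l, rfl⟩ := Nat.exists_eq_add_of_le h3
          rw [hx'ge l] at hcon
          cases hl : F.toList[l]? with
          | none =>
            rw [hl] at hcon
            exact OnePoint.infty_ne_coe _ hcon
          | some i' =>
            rw [hl] at hcon
            have h4 := OnePoint.coe_injective hcon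
            have h5 : i' = i := congrArg Prod.fst h4
            have h6 : γ i' = !γ i := congrArg Prod.snd h4
            rw [h5] at h6
            cases hgi : γ i <;> rw [hgi] at h6 <;> simp at h6
    · rw [hγ]
      have h3 := hz i
      unfold R1 at h3
      unfold EE
      split_ifs with h4
      · rcases h3 with h3 | h3 | h3
        · exact Or.inl h3
        · exact Or.inr (Or.inr ⟨rfl, h3.2⟩)
        · exfalso; tauto
      · rw [not_or] at h4
        exact Or.inr (Or.inl ⟨rfl, h4⟩)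

theorem phi : Phi CC := by
  classical
  rintro a b c d ⟨x, z, z', hza, hzb, hR⟩ hcd
  obtain ⟨Wa, hWa, hxa, Fa, hFa⟩ := depend a x
  obtain ⟨Wb, hWb, hxb, Fb, hFb⟩ := depend b x
  obtain ⟨Wc, hWc, hxc, Fc, hFc⟩ := depend c x
  obtain ⟨Wd, hWd, hxd, Fd, hFd⟩ := depend d x
  let W := Wa ∩ Wb ∩ Wc ∩ Wd
  have hW : IsOpen W := ((hWa.inter hWb).inter hWc).inter hWd
  let F := Fa ∪ Fb ∪ Fc ∪ Fd
  have hsa : Fa ⊆ F := fun i hi => by simp only [F, Finset.mem_union]; tauto
  have hsb : Fb ⊆ F := fun i hi => by simp only [F, Finset.mem_union]; tauto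
  have hsc : Fc ⊆ F := fun i hi => by simp only [F, Finset.mem_union]; tauto
  have hsd : Fd ⊆ F := fun i hi => by simp only [F, Finset.mem_union]; tauto
  obtain ⟨x', γ, hx'W, hγ⟩ := exists_good x W hW ⟨⟨⟨hxa, hxb⟩, hxc⟩, hxd⟩ F z z' hR
  -- a clopen neighbourhood of `x'`
  have hopen : IsOpen (W ∩ ⋂ i ∈ (F : Set Idx), {y : YY | TT i (γ i) y}) :=
    hW.inter ((Finset.finite_toSet F).isOpen_biInter fun i _ => isOpen_TT i (γ i))
  obtain ⟨W', hW'c, hx'W', hW'sub⟩ := compact_exists_isClopen_in_isOpen hopen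
    (show x' ∈ W ∩ ⋂ i ∈ (F : Set Idx), {y : YY | TT i (γ i) y} from
      ⟨hx'W, Set.mem_iInter₂.2 fun i hi => (hγ i hi).1⟩)
  have hT : ∀ y ∈ W', ∀ i ∈ F, TT i (γ i) y := fun y hy i hi =>
    Set.mem_iInter₂.1 (hW'sub hy).2 i hi
  let S : Set XX := Prod.fst ⁻¹' W' ∩
    Prod.snd ⁻¹' (⋂ i ∈ (F : Set Idx), (fun u : ZZ => u i) ⁻¹' {t | EE (γ i) (z i) t})
  have hS : IsClopen S := by
    refine IsClopen.inter (hW'c.preimage continuous_fst) (IsClopen.preimage ?_ continuous_snd)
    exact (Finset.finite_toSet F).isClopen_biInter fun i _ =>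
      (isClopen_discrete _).preimage (continuous_apply i)
  have hmemS : ∀ y u, (y, u) ∈ S ↔ y ∈ W' ∧ ∀ i ∈ F, EE (γ i) (z i) (u i) := by
    intro y u
    simp only [S, Set.mem_inter_iff, Set.mem_preimage, Set.mem_iInter, Set.mem_setOf_eq,
      Finset.mem_coe]
  refine ⟨⟨S, hS⟩, ?_, ?_, ?_⟩
  · rintro ⟨y, u, v, hu, hv, h⟩
    apply hv
    obtain ⟨hy, hu'⟩ := (hmemS y u).1 hu
    exact (hmemS y v).2 ⟨hy, fun i hi => EE_trans (hu' i hi) ((R1_iff (hT y hy i hi) _ _).1 (h i))⟩
  · refine ⟨x', z, fun i => if i ∈ F then z' i else z i, ⟨?_, ?_⟩, ?_, ?_⟩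
    · exact (hFa x' hx'W.1.1.1 z z fun i _ => rfl).1 hza
    · exact (hmemS x' z).2 ⟨hx'W', fun i _ => EE_refl _ _⟩
    · refine (hFb x' hx'W.1.1.2 z' _ fun i hi => ?_).1 hzb
      rw [if_pos (hsb hi)]
    · intro i
      by_cases hi : i ∈ F
      · simp only [if_pos hi]
        exact (R1_iff (hγ i hi).1 _ _).2 (hγ i hi).2
      · simp only [if_neg hi]
        exact Or.inl rfl
  · by_contra hcon
    rw [not_or] at hcon
    have hne : ∀ s : Clopens XX, s ≠ ⊥ → ∃ p, p ∈ s := by
      intro s hs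
      by_contra h
      push Not at h
      apply hs
      ext p
      constructor
      · intro hp; exact absurd hp (h p)
      · intro hp; exact absurd hp (by exact id)
    obtain ⟨⟨y, u⟩, hyu⟩ := hne _ hcon.1
    obtain ⟨⟨y', u'⟩, hyu'⟩ := hne _ hcon.2
    obtain ⟨hy, hu⟩ := (hmemS y u).1 hyu.1
    obtain ⟨hy', hu'⟩ := (hmemS y' u').1 hyu'.1
    have hyW : y ∈ W := (hW'sub hy).1
    have hyW' : y' ∈ W := (hW'sub hy').1
    apply hcd
    refine ⟨x', u, fun i => if i ∈ F then u' i else u i, ?_, ?_, ?_⟩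
    · have h1 := (hFc y hyW.1.2 u u fun i _ => rfl).2 hyu.2
      exact (hFc x' hx'W.1.2 u u fun i _ => rfl).1 h1
    · have h1 := (hFd y' hyW'.2 u' u' fun i _ => rfl).2 hyu'.2
      refine (hFd x' hx'W.2 u' _ fun i hi => ?_).1 h1
      rw [if_pos (hsd hi)]
    · intro i
      by_cases hi : i ∈ F
      · simp only [if_pos hi]
        exact (R1_iff (hγ i hi).1 _ _).2 (EE_trans (EE_symm (hu i hi)) (hu' i hi))
      · simp only [if_neg hi]
        exact Or.inl rfl

theorem exists_missing (x : YY) : ∃ i : Idx, ∀ m β, x m ≠ ((i, β) : Lt) := by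
  classical
  by_contra hcon
  push Not at hcon
  choose m β h using hcon
  have hinj : Function.Injective m := by
    intro i i' hii
    have h1 := h i
    rw [hii, h i'] at h1
    exact (congrArg Prod.fst (OnePoint.coe_injective h1)).symm
  have h1 : Countable Idx := hinj.countable
  have h2 : Countable (ℕ → Bool) := h1
  have h3 : Countable (Set ℕ) := by
    refine (show Function.Injective (fun (s : Set ℕ) (n : ℕ) => decide (n ∈ s)) from ?_).countable
    intro s t hst
    ext n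
    have := congrFun hst n
    simpa using this
  exact (Cardinal.cantor Cardinal.aleph0).not_ge (by
    have := Cardinal.mk_le_aleph0 (α := Set ℕ)
    rwa [Cardinal.mk_set, Cardinal.mk_nat] at this)

theorem not_reg : ¬ Reg CC := by
  classical
  intro hReg
  have hTT : CC ⊤ ⊤ := ⟨fun _ => OnePoint.infty, fun _ => 0, fun _ => 0, trivial, trivial,
    fun i => Or.inl rfl⟩
  obtain ⟨Γ, hΓ, hTop, -⟩ := hReg ⊤ ⊤ hTT
  have hcl := hΓ.cluster.clan
  -- a point of `Γ`
  obtain ⟨⟨x, z⟩, hp⟩ : ∃ p : XX, ∀ U : Clopens XX, p ∈ U → U ∈ Γ := by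
    by_contra hcon
    push Not at hcon
    choose U hU1 hU2 using hcon
    obtain ⟨t, ht⟩ := isCompact_univ.elim_finite_subcover (fun p : XX => (U p : Set XX))
      (fun p => (U p).isClopen.isOpen) (fun p _ => Set.mem_iUnion.2 ⟨p, hU1 p⟩)
    have h1 : ∀ s : Finset XX, s.sup U ∉ Γ := by
      intro s
      induction s using Finset.induction_on with
      | empty => rw [Finset.sup_empty]; exact hcl.bot_not_mem
      | insert p s hps ih =>
        rw [Finset.sup_insert]
        intro h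
        rcases hcl.sup _ _ h with h | h
        · exact hU2 p h
        · exact ih h
    apply h1 t
    have h2 : ∀ (s : Finset XX) (p q : XX), p ∈ s → q ∈ U p → q ∈ s.sup U := by
      intro s p q hps hq
      have : U p ≤ s.sup U := Finset.le_sup hps
      exact this hq
    have : t.sup U = ⊤ := by
      ext q
      constructor
      · intro _; trivial
      · intro _
        obtain ⟨p, hp, hq⟩ := Set.mem_iUnion₂.1 (ht (Set.mem_univ q))
        exact h2 t p q hp hq
    rw [this]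
    exact hTop
  -- saturation
  have hsat : ∀ (u v : ZZ), (∀ i, R1 i x (u i) (v i)) → (∀ U : Clopens XX, (x, u) ∈ U → U ∈ Γ) →
      ∀ U : Clopens XX, (x, v) ∈ U → U ∈ Γ := by
    intro u v huv hu U hU
    by_contra hcon
    obtain ⟨V, hV1, hV2⟩ := hΓ.exists_well_inside U hcon
    apply hV1
    apply hu
    by_contra hxV
    exact hV2 ⟨x, v, u, hU, hxV, fun i => R1_symm (huv i)⟩
  obtain ⟨i, hi⟩ := exists_missing x
  have hnT : ∀ β, ¬ TT i β x := fun β ⟨n, hn, _⟩ => hi n β hn
  have hR1 : ∀ s t : Fin 3, (s ≠ 2 ∧ t ≠ 2) ∨ (s ≠ 0 ∧ t ≠ 0) →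
      ∀ k, R1 k x (Function.update z i s k) (Function.update z i t k) := by
    intro s t hst k
    by_cases hk : k = i
    · subst hk
      rw [Function.update_self, Function.update_self]
      rcases hst with h | h
      · exact Or.inr (Or.inl ⟨hnT _, h⟩)
      · exact Or.inr (Or.inr ⟨hnT _, h⟩)
    · rw [Function.update_of_ne hk, Function.update_of_ne hk]
      exact Or.inl rfl
  have hz : Function.update z i (z i) = z := Function.update_eq_self i z
  have h1 : ∀ U : Clopens XX, (x, Function.update z i 1) ∈ U → U ∈ Γ := by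
    apply hsat z _ _ hp
    have : ∀ s : Fin 3, (s ≠ 2 ∧ (1 : Fin 3) ≠ 2) ∨ (s ≠ 0 ∧ (1 : Fin 3) ≠ 0) := by decide
    have h2 := hR1 (z i) 1 (this _)
    rwa [hz] at h2
  have h0 : ∀ U : Clopens XX, (x, Function.update z i 0) ∈ U → U ∈ Γ :=
    hsat _ _ (hR1 1 0 (by decide)) h1
  have h2 : ∀ U : Clopens XX, (x, Function.update z i 2) ∈ U → U ∈ Γ :=
    hsat _ _ (hR1 1 2 (by decide)) h1
  let A : Fin 3 → Clopens XX := fun s =>
    ⟨(fun p : XX => p.2 i) ⁻¹' {s}, (isClopen_discrete _).preimage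
      ((continuous_apply i).comp continuous_snd)⟩
  have hA0 : A 0 ∈ Γ := h0 _ (by
    show Function.update z i 0 i = 0
    rw [Function.update_self])
  have hA2 : A 2 ∈ Γ := h2 _ (by
    show Function.update z i 2 i = 2
    rw [Function.update_self])
  obtain ⟨y, u, v, hu, hv, h⟩ := hcl.contact _ hA0 _ hA2
  have hu' : u i = 0 := hu
  have hv' : v i = 2 := hv
  have h3 := h i
  rw [hu', hv'] at h3
  rcases h3 with h3 | h3 | h3
  · exact absurd h3 (by decide)
  · exact h3.2.2 rfl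
  · exact h3.2.1 rfl

end Pool.Agent.V11251.CR
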