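import Mathlib

/-!
# Contact algebras and the regularity axiom
-/

set_option autoImplicit false
set_option linter.unusedVariables false
set_option linter.unusedSectionVars false

namespace Pool.Agent.V11251.CR

/-- The axioms of contact algebras for the relation `C` on the Boolean algebra `B`. -/
structure IsContact {B : Type} [BooleanAlgebra B] (C : B → B → Prop) : Prop where
  ne_bot : ∀ a b, C a b → a ≠ ⊥ ∧ b ≠ ⊥
  sup : ∀ a b c, C a (b ⊔ c) ↔ C a b ∨ C a c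
  symm : ∀ a b, C a b → C b a
  of_meet : ∀ a b, a ⊓ b ≠ ⊥ → C a b

/-- Clans. -/
structure IsClan {B : Type} [BooleanAlgebra B] (C : B → B → Prop) (Γ : Set B) : Prop where
  nonempty : Γ.Nonempty
  bot_not_mem : ⊥ ∉ Γ
  up : ∀ a ∈ Γ, ∀ b, a ≤ b → b ∈ Γ
  sup : ∀ a b, a ⊔ b ∈ Γ → a ∈ Γ ∨ b ∈ Γ
  contact : ∀ a ∈ Γ, ∀ b ∈ Γ, C a b

/-- Clusters. -/
structure IsCluster {B : Type} [BooleanAlgebra B] (C : B → B → Prop) (Γ : Set B) : Prop where
  clan : IsClan C Γ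
  mem : ∀ a, (∀ b ∈ Γ, C a b) → a ∈ Γ

/-- Co-ends. -/
structure IsCoEnd {B : Type} [BooleanAlgebra B] (C : B → B → Prop) (Γ : Set B) : Prop where
  cluster : IsCluster C Γ
  exists_well_inside : ∀ a, a ∉ Γ → ∃ b, b ∉ Γ ∧ ¬ C a bᶜ

/-- The regularity axiom. -/
def Reg {B : Type} [BooleanAlgebra B] (C : B → B → Prop) : Prop :=
  ∀ a b, C a b → ∃ Γ, IsCoEnd C Γ ∧ a ∈ Γ ∧ b ∈ Γ

/-- The first-order condition. -/
def Phi {B : Type} [BooleanAlgebra B] (C : B → B → Prop) : Prop :=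
  ∀ a b c d, C a b → ¬ C c d → ∃ f, ¬ C f fᶜ ∧ C (a ⊓ f) b ∧ (f ⊓ c = ⊥ ∨ f ⊓ d = ⊥)

variable {B : Type} [BooleanAlgebra B] {C : B → B → Prop}

theorem IsContact.mono_right (hC : IsContact C) {a b b' : B} (h : C a b) (hb : b ≤ b') :
    C a b' := by
  have : b' = b ⊔ b' := (sup_eq_right.2 hb).symm
  rw [this, hC.sup]
  exact Or.inl h

theorem IsContact.mono (hC : IsContact C) {a a' b b' : B} (h : C a b) (ha : a ≤ a')
    (hb : b ≤ b') : C a' b' :=
  hC.mono_right (hC.symm _ _ (hC.mono_right (hC.symm _ _ h) ha)) hb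

/-- In countable contact algebras the first-order condition implies regularity. -/
theorem reg_of_countable [Countable B] (hC : IsContact C) (hΦ : Phi C) : Reg C := by
  classical
  intro a b hab
  obtain ⟨e, he⟩ := exists_surjective_nat (B × B)
  have step : ∀ (x : {x // C x b}) (n : ℕ), ∃ y : {x // C x b}, y.1 ≤ x.1 ∧
      (¬ C (e n).1 (e n).2 → ∃ f, ¬ C f fᶜ ∧ y.1 ≤ f ∧ (f ⊓ (e n).1 = ⊥ ∨ f ⊓ (e n).2 = ⊥)) := by
    rintro ⟨x, hx⟩ n
    by_cases h : C (e n).1 (e n).2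
    · exact ⟨⟨x, hx⟩, le_rfl, fun h' => absurd h h'⟩
    · obtain ⟨f, hf1, hf2, hf3⟩ := hΦ x b _ _ hx h
      exact ⟨⟨x ⊓ f, hf2⟩, inf_le_left, fun _ => ⟨f, hf1, inf_le_right, hf3⟩⟩
  choose F hF1 hF2 using step
  let S : ℕ → {x // C x b} := fun n => Nat.rec ⟨a, hab⟩ (fun n x => F x n) n
  have hS : ∀ n, S (n + 1) = F (S n) n := fun n => rfl
  have hanti : Antitone fun n => (S n).1 := antitone_nat_of_succ_le fun n => by
    show (S (n + 1)).1 ≤ (S n).1
    rw [hS]; exact hF1 _ _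
  have hne : ∀ n, (S n).1 ≠ ⊥ := fun n => (hC.ne_bot _ _ (S n).2).1
  have hSS : ∀ n m, C (S n).1 (S m).1 := by
    intro n m
    apply hC.of_meet
    intro h
    apply hne (max n m)
    apply le_bot_iff.1
    rw [← h]
    exact le_inf (hanti (le_max_left _ _)) (hanti (le_max_right _ _))
  have hpair : ∀ c d, ¬ C c d → ∃ n f, ¬ C f fᶜ ∧ (S n).1 ≤ f ∧ (f ⊓ c = ⊥ ∨ f ⊓ d = ⊥) := by
    intro c d hcd
    obtain ⟨n, hn⟩ := he (c, d)
    obtain ⟨f, hf⟩ := hF2 (S n) n (by rw [hn]; exact hcd)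
    rw [hn] at hf
    exact ⟨n + 1, f, hf⟩
  have hmeet : ∀ n f c, ¬ C f fᶜ → (S n).1 ≤ f → C (S n).1 c → f ⊓ c ≠ ⊥ := by
    intro n f c hf hn hc h
    apply hf
    have : c ≤ fᶜ := by
      exact le_compl_iff_disjoint_left.2 (disjoint_iff.2 h)
    exact hC.mono hc hn this
  let Γ : Set B := {c | ∀ n, C (S n).1 c}
  have hclan : IsClan C Γ := by
    refine ⟨⟨b, fun n => (S n).2⟩, fun h => (hC.ne_bot _ _ (h 0)).2 rfl,
      fun x hx y hxy n => hC.mono_right (hx n) hxy, ?_, ?_⟩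
    · intro x y hxy
      by_contra hcon
      rw [not_or] at hcon
      obtain ⟨h1, h2⟩ := hcon
      simp only [Γ, Set.mem_setOf_eq, not_forall] at h1 h2
      obtain ⟨n, hn⟩ := h1
      obtain ⟨m, hm⟩ := h2
      rcases (hC.sup _ _ _).1 (hxy (max n m)) with h3 | h3
      · exact hn (hC.mono h3 (hanti (le_max_left _ _)) le_rfl)
      · exact hm (hC.mono h3 (hanti (le_max_right _ _)) le_rfl)
    · intro x hx y hy
      by_contra hcon
      obtain ⟨n, f, hf1, hf2, hf3⟩ := hpair x y hcon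
      rcases hf3 with h | h
      · exact hmeet n f x hf1 hf2 (hx n) h
      · exact hmeet n f y hf1 hf2 (hy n) h
  have hSΓ : ∀ n, (S n).1 ∈ Γ := fun n m => hSS m n
  refine ⟨Γ, ⟨⟨hclan, fun x hx n => hC.symm _ _ (hx _ (hSΓ n))⟩, ?_⟩, hSΓ 0, fun n => (S n).2⟩
  intro c hc
  simp only [Γ, Set.mem_setOf_eq, not_forall] at hc
  obtain ⟨n, hn⟩ := hc
  obtain ⟨m, f, hf1, hf2, hf3⟩ := hpair _ _ hn
  rcases hf3 with h | h
  · exfalso
    apply hne (max n m)
    apply le_bot_iff.1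
    rw [← h]
    exact le_inf ((hanti (le_max_right _ _)).trans hf2) (hanti (le_max_left _ _))
  · refine ⟨fᶜ, ?_, ?_⟩
    · intro hmem
      exact hf1 (hC.mono (hmem m) hf2 le_rfl)
    · rw [compl_compl]
      intro hcf
      apply hf1
      have : c ≤ fᶜ := le_compl_iff_disjoint_left.2 (disjoint_iff.2 h)
      exact hC.mono (hC.symm _ _ hcf) le_rfl this

end Pool.Agent.V11251.CR
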